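import Pool.Agent.Helper455_tow.Sch
import Pool.Agent.Helper455_tow.Step

/-!
# Classes of algebraically dependent numbers among `log α`, `α ^ β`, …, `α ^ (β ^ (d - 1))`

Algebraic dependence is an equivalence relation on the set of transcendental numbers.  The
conjecture of Gel'fond and Schneider implies that the `d` numbers `log α`, `α ^ β`, …,
`α ^ (β ^ (d - 1))` belong to `d` different classes.  We show that

* at most `√(8 d + 4) - 3` of the powers `α ^ (β ^ k)`, `1 ≤ k ≤ d - 1`, belong to the same class;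
* at most `√(4 d + 1) - 2` of them belong to the class of `log α`.

More generally let `L` be a number field of degree `D`, `u ≠ 0` a complex number and `θ` a
transcendental number.  Then `θ` and `e ^ (u γ)` are algebraically independent for all `γ ∈ L`
outside a rational subspace of dimension at most `√(8 D + 4) - 2`, and `√(4 D + 1) - 1` if `θ` and
`u` are algebraically dependent.

The proof uses the linear subgroup theorem in transcendence degree one, in the form of the product
inequalities `prod1` and `prod2` of the starting file `Pool.Agent.W243.TD.Main`.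
-/

set_option autoImplicit false

namespace Pool.Agent.Results.MP_327059_nt.DependenceClasses

open Module
open Pool.Agent.W243.TD
open Pool.Agent.Helper455.Sch

/-- the elements `γ` of `L` with `e ^ (u γ)` algebraic over `ℚ(θ)` -/
noncomputable def VV (L : IntermediateField ℚ ℂ) (u θ : ℂ) : Submodule ℚ ℂ where
  carrier := {γ | γ ∈ L ∧ Al θ (Complex.exp (u * γ))}
  zero_mem' := by
    refine ⟨L.zero_mem, ?_⟩
    rw [mul_zero, Complex.exp_zero]
    exact isAlgebraic_one
  add_mem' := by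
    rintro x y ⟨hx, hx'⟩ ⟨hy, hy'⟩
    refine ⟨L.add_mem hx hy, ?_⟩
    rw [mul_add, Complex.exp_add]
    exact hx'.mul hy'
  smul_mem' := by
    rintro a x ⟨hx, hx'⟩
    refine ⟨L.toSubalgebra.toSubmodule.smul_mem a hx, ?_⟩
    have h1 : a • x = (a : ℂ) * x := Rat.smul_def a x
    rw [h1]
    have hd : 0 < a.den := a.den_pos
    apply IsAlgebraic.of_pow hd
    have e1 : Complex.exp (u * ((a : ℂ) * x)) ^ a.den = Complex.exp (u * x) ^ a.num := by
      rw [← Complex.exp_nat_mul, ← Complex.exp_int_mul]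
      congr 1
      have h2 : (a.den : ℂ) * (a : ℂ) = (a.num : ℂ) := by
        have := Rat.den_mul_eq_num a
        exact_mod_cast this
      rw [← h2]
      ring
    rw [e1]
    obtain ⟨m, hm | hm⟩ := a.num.eq_nat_or_neg
    · rw [hm, zpow_natCast]; exact hx'.pow m
    · rw [hm, zpow_neg, zpow_natCast]; exact (hx'.pow m).inv

theorem al_of_alg {θ x : ℂ} (h : IsAlgebraic ℚ x) : Al θ x :=
  h.tower_top (K := ℚ) _

theorem alg_of_mem {L : IntermediateField ℚ ℂ} (hL : FiniteDimensional ℚ L) {x : ℂ} (hx : x ∈ L) :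
    IsAlgebraic ℚ x := by
  have h : IsAlgebraic ℚ (⟨x, hx⟩ : L) := Algebra.IsAlgebraic.isAlgebraic _
  exact h.algebraMap (A := ℂ)

theorem bound2 {w D : ℕ} (hwD : w ≤ D)
    (key : ∀ a : ℕ, a ≤ D → a * w ≤ D + 2 * (a * (a - 1))) : (w + 2) ^ 2 ≤ 8 * D + 4 := by
  obtain ⟨c, r, hr, hw⟩ : ∃ c r, r < 4 ∧ w = 4 * c + r :=
    ⟨w / 4, w % 4, Nat.mod_lt _ (by norm_num), by omega⟩
  interval_cases r
  · rcases Nat.eq_zero_or_pos c with h0 | h0
    · subst h0
      subst hw
      omega
    · have h := key c (by omega)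
      obtain ⟨c, rfl⟩ : ∃ c', c = c' + 1 := ⟨c - 1, by omega⟩
      simp only [Nat.add_sub_cancel] at h
      subst hw
      nlinarith
  all_goals
    have h := key (c + 1) (by omega)
    simp only [Nat.add_sub_cancel] at h
    subst hw
    nlinarith

theorem number_field2 {θ : ℂ} (hθ : Transcendental ℚ θ) (L : IntermediateField ℚ ℂ)
    (hL : FiniteDimensional ℚ L) (u : ℂ) (hu : u ≠ 0) :
    (finrank ℚ (VV L u θ) + 2) ^ 2 ≤ 8 * finrank ℚ L + 4 := by
  set Ls : Submodule ℚ ℂ := Subalgebra.toSubmodule L.toSubalgebra with hLs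
  have hLsf : FiniteDimensional ℚ Ls := hL
  have hLsr : finrank ℚ Ls = finrank ℚ L := rfl
  have hWle : VV L u θ ≤ Ls := fun a ha => ha.1
  have hWf : FiniteDimensional ℚ (VV L u θ) := Submodule.finiteDimensional_of_le hWle
  apply bound2
  · rw [← hLsr]
    exact Submodule.finrank_mono hWle
  intro a ha
  obtain ⟨g, hg⟩ := exists_linearIndependent_of_le_finrank (R := ℚ) (M := Ls)
    (n := a) (by rw [hLsr]; exact ha)
  have hg' : LinearIndependent ℚ (fun i => (g i : ℂ)) :=
    hg.map' Ls.subtype (Submodule.ker_subtype _)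
  set X : Submodule ℚ ℂ := Submodule.span ℚ (Set.range (fun i => (g i : ℂ))) with hX
  have hXr : finrank ℚ X = a := by
    rw [hX, finrank_span_eq_card hg', Fintype.card_fin]
  have hXf : FiniteDimensional ℚ X := FiniteDimensional.span_of_finite ℚ (Set.finite_range _)
  have hXL : X ≤ Ls := by
    rw [hX, Submodule.span_le]
    rintro _ ⟨i, rfl⟩
    exact (g i).2
  have h := prod2 hθ hu X (VV L u θ) Ls (fun z hz => al_of_alg (alg_of_mem hL hz.1))
    (fun z hz => hz.2) (fun x hx z hz => L.mul_mem (hXL hx) hz.1)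
  rwa [hXr, hLsr] at h

theorem not_indep_self (θ : ℂ) : ¬ AlgebraicIndependent ℚ ![θ, θ] := by
  intro h
  have := h.injective (a₁ := 0) (a₂ := 1) (by simp)
  exact absurd this (by decide)

theorem not_indep_alg {θ z : ℂ} (hz : IsAlgebraic ℚ z) : ¬ AlgebraicIndependent ℚ ![θ, z] := by
  intro h
  exact (Pool.Agent.Helper455.Tow.tr_right h) hz

/-- **Main result.** -/
theorem result :
    -- number fields
    (∀ L : IntermediateField ℚ ℂ, FiniteDimensional ℚ L → ∀ u θ : ℂ, u ≠ 0 →
      Transcendental ℚ θ → ∃ W : Submodule ℚ ℂ, (∀ γ ∈ W, γ ∈ L) ∧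
        (∀ γ ∈ L, γ ∉ W → AlgebraicIndependent ℚ ![θ, Complex.exp (u * γ)]) ∧
        (finrank ℚ W + 2) ^ 2 ≤ 8 * finrank ℚ L + 4 ∧
        (¬ AlgebraicIndependent ℚ ![θ, u] → (finrank ℚ W + 1) ^ 2 ≤ 4 * finrank ℚ L + 1)) ∧
    -- the numbers `l = log α` and `α ^ (β ^ k) = exp (β ^ k * l)`, `1 ≤ k ≤ d - 1`
    ∀ β l : ℂ, IsAlgebraic ℚ β → l ≠ 0 → IsAlgebraic ℚ (Complex.exp l) →
      ∀ d : ℕ, d = (minpoly ℚ β).natDegree →
      ∀ S : Finset ℕ, (∀ k ∈ S, 1 ≤ k ∧ k < d) →
        ((∀ i ∈ S, ∀ j ∈ S, i ≠ j → ¬ AlgebraicIndependent ℚ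
          ![Complex.exp (β ^ i * l), Complex.exp (β ^ j * l)]) → (S.card + 3) ^ 2 ≤ 8 * d + 4) ∧
        ((∃ θ : ℂ, Transcendental ℚ θ ∧ ∀ i ∈ S, ¬ AlgebraicIndependent ℚ
          ![θ, Complex.exp (β ^ i * l)]) → (S.card + 3) ^ 2 ≤ 8 * d + 4) ∧
        ((∀ i ∈ S, ¬ AlgebraicIndependent ℚ ![l, Complex.exp (β ^ i * l)]) →
          (S.card + 2) ^ 2 ≤ 4 * d + 1) := by
  have part1 : ∀ L : IntermediateField ℚ ℂ, FiniteDimensional ℚ L → ∀ u θ : ℂ, u ≠ 0 →
      Transcendental ℚ θ → ∃ W : Submodule ℚ ℂ, (∀ γ ∈ W, γ ∈ L) ∧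
        (∀ γ ∈ L, γ ∉ W → AlgebraicIndependent ℚ ![θ, Complex.exp (u * γ)]) ∧
        (finrank ℚ W + 2) ^ 2 ≤ 8 * finrank ℚ L + 4 ∧
        (¬ AlgebraicIndependent ℚ ![θ, u] →
          (finrank ℚ W + 1) ^ 2 ≤ 4 * finrank ℚ L + 1) := by
    intro L hL u θ hu hθ
    refine ⟨VV L u θ, fun γ hγ => hγ.1, ?_, number_field2 hθ L hL u hu, ?_⟩
    · intro γ hγ hγW
      by_contra hcon
      exact hγW ⟨hγ, Pool.Agent.Helper455.Tow.dep_al hθ hcon⟩
    · intro hdep
      have hau : Al θ u := Pool.Agent.Helper455.Tow.dep_al hθ hdep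
      apply number_field hθ L hL u hu (VV L u θ) (fun a ha => ha.1)
      intro a ha
      exact ⟨hau.mul (al_of_alg (alg_of_mem hL ha.1)), ha.2⟩
  refine ⟨part1, ?_⟩
  intro β l hβ hl hexp d hd S hS
  have hβi : IsIntegral ℚ β := hβ.isIntegral
  let L : IntermediateField ℚ ℂ := IntermediateField.adjoin ℚ {β}
  have hL : FiniteDimensional ℚ L := IntermediateField.adjoin.finiteDimensional hβi
  have hLd : finrank ℚ L = d := by
    rw [hd]
    exact IntermediateField.adjoin.finrank hβi
  have hβL : β ∈ L := IntermediateField.mem_adjoin_simple_self ℚ β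
  -- powers are linearly independent
  have hli : LinearIndependent ℚ (fun i : Fin d => β ^ (i : ℕ)) := by
    rw [hd]
    have h1 := linearIndependent_pow (K := ℚ) β
    exact h1
  -- counting
  have count : ∀ W : Submodule ℚ ℂ, FiniteDimensional ℚ W → (1 : ℂ) ∈ W →
      (∀ i ∈ S, β ^ i ∈ W) → 1 ≤ d → S.card + 1 ≤ finrank ℚ W := by
    intro W hWf h1 hSW hd1
    let S' : Finset (Fin d) := Finset.univ.filter (fun i => (i : ℕ) ∈ insert 0 S)
    have hcard : S'.card = S.card + 1 := by
      have h0 : 0 ∉ S := by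
        intro h
        have := (hS 0 h).1
        omega
      rw [← Finset.card_insert_of_notMem h0]
      apply Finset.card_bij (fun (i : Fin d) _ => (i : ℕ))
      · intro i hi
        exact (Finset.mem_filter.1 hi).2
      · intro i _ j _ hij
        exact Fin.ext hij
      · intro k hk
        have hkd : k < d := by
          rcases Finset.mem_insert.1 hk with h | h
          · omega
          · exact (hS k h).2
        exact ⟨⟨k, hkd⟩, Finset.mem_filter.2 ⟨Finset.mem_univ _, hk⟩, rfl⟩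
    have hli' : LinearIndependent ℚ (fun i : S' => β ^ ((i : Fin d) : ℕ)) :=
      hli.comp (fun i : S' => (i : Fin d)) Subtype.val_injective
    have hmem : ∀ i : S', β ^ ((i : Fin d) : ℕ) ∈ W := by
      intro i
      have := (Finset.mem_filter.1 i.2).2
      rcases Finset.mem_insert.1 this with h | h
      · rw [h, pow_zero]; exact h1
      · exact hSW _ h
    have hli'' : LinearIndependent ℚ (fun i : S' => (⟨β ^ ((i : Fin d) : ℕ), hmem i⟩ : W)) := by
      apply LinearIndependent.of_comp W.subtype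
      exact hli'
    have := hli''.fintype_card_le_finrank
    rw [Fintype.card_coe, hcard] at this
    exact this
  have hd1 : 1 ≤ d := by
    rw [hd]
    exact minpoly.natDegree_pos hβi
  have finW : ∀ W : Submodule ℚ ℂ, (∀ γ ∈ W, γ ∈ L) → FiniteDimensional ℚ W := by
    intro W hW
    have hf : FiniteDimensional ℚ (Subalgebra.toSubmodule L.toSubalgebra) := hL
    exact Submodule.finiteDimensional_of_le (S₂ := Subalgebra.toSubmodule L.toSubalgebra) hW
  have main : ∀ θ : ℂ, Transcendental ℚ θ → (∀ i ∈ S, ¬ AlgebraicIndependent ℚ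
      ![θ, Complex.exp (β ^ i * l)]) → ∃ W : Submodule ℚ ℂ, S.card + 1 ≤ finrank ℚ W ∧
        (finrank ℚ W + 2) ^ 2 ≤ 8 * d + 4 ∧
        (¬ AlgebraicIndependent ℚ ![θ, l] → (finrank ℚ W + 1) ^ 2 ≤ 4 * d + 1) := by
    intro θ hθ h
    obtain ⟨W, hW1, hW2, hW3, hW4⟩ := part1 L hL l θ hl hθ
    rw [hLd] at hW3 hW4
    refine ⟨W, ?_, hW3, hW4⟩
    apply count W (finW W hW1) _ _ hd1
    · by_contra hcon
      have := hW2 1 L.one_mem hcon
      rw [mul_one] at this
      exact not_indep_alg hexp this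
    · intro i hi
      by_contra hcon
      have := hW2 (β ^ i) (L.pow_mem hβL i) hcon
      rw [mul_comm] at this
      exact h i hi this
  have main2 : (∃ θ : ℂ, Transcendental ℚ θ ∧ ∀ i ∈ S, ¬ AlgebraicIndependent ℚ
          ![θ, Complex.exp (β ^ i * l)]) → (S.card + 3) ^ 2 ≤ 8 * d + 4 := by
    rintro ⟨θ, hθ, h⟩
    obtain ⟨W, h1, h2, -⟩ := main θ hθ h
    calc (S.card + 3) ^ 2 ≤ (finrank ℚ W + 2) ^ 2 := Nat.pow_le_pow_left (by omega) 2
      _ ≤ _ := h2
  have hlt : Transcendental ℚ l := by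
    intro h
    exact Pool.Agent.H340R2.LW.transcendental_cexp l h hl hexp
  refine ⟨?_, main2, ?_⟩
  · intro h
    apply main2
    by_cases hall : ∀ i ∈ S, IsAlgebraic ℚ (Complex.exp (β ^ i * l))
    · exact ⟨l, hlt, fun i hi => not_indep_alg (hall i hi)⟩
    · push Not at hall
      obtain ⟨i, hi, hti⟩ := hall
      refine ⟨Complex.exp (β ^ i * l), hti, ?_⟩
      intro j hj
      by_cases hij : i = j
      · subst hij
        exact not_indep_self _
      · exact h i hi j hj hij
  · intro h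
    obtain ⟨W, h1, -, h3⟩ := main l hlt h
    have h4 := h3 (not_indep_self l)
    calc (S.card + 2) ^ 2 ≤ (finrank ℚ W + 1) ^ 2 := Nat.pow_le_pow_left (by omega) 2
      _ ≤ _ := h4

end Pool.Agent.Results.MP_327059_nt.DependenceClasses
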